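import Pool.Agent.Helper41.LD4.Cst

/-!
# Project LD5: powers and multiples at once, definitions
-/

set_option autoImplicit false

namespace Pool.Agent.Helper41.LD5

open Set MeasureTheory
open Pool.Agent.Helper41.LD (av var haar Dioph)
open Pool.Agent.Helper41.LD2 (EqA)
open Pool.Agent.Helper41.LD3 (Us tm fr lamG)
open Pool.Agent.Helper41.LD4

/-! ## One increasing convex function, a sequence of such functions -/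

/-- `U` has the positive increasing derivative `V` on `[p, q]` -/
structure Cv (U V : ℝ → ℝ) (p q : ℝ) : Prop where
  meas : Measurable U
  der : ∀ x ∈ Icc p q, HasDerivAt U (V x) x
  pos : ∀ x ∈ Icc p q, 0 < V x
  mono : MonotoneOn V (Icc p q)

theorem Cv.sub {U V : ℝ → ℝ} {p q p' q' : ℝ} (h : Cv U V p q) (h1 : p ≤ p') (h2 : q' ≤ q) : Cv U V p' q' :=
  ⟨h.meas, fun x hx => h.der x ⟨h1.trans hx.1, hx.2.trans h2⟩, fun x hx => h.pos x ⟨h1.trans hx.1, hx.2.trans h2⟩,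
    h.mono.mono (Icc_subset_Icc h1 h2)⟩

/-- the derivatives grow at least geometrically -/
structure Sq (U V : ℕ → ℝ → ℝ) (β p q : ℝ) : Prop where
  hβ : 1 < β
  cv : ∀ j, Cv (U j) (V j) p q
  grow : ∀ j, ∀ x ∈ Icc p q, β * V j x ≤ V (j + 1) x

/-! ## Functionals along general sequences -/

/-- the functional `p` along the sequences `U s` -/
noncomputable def GU (ty : ℕ → ℕ × ℕ × ℕ) (Q : ℕ) (U : ℕ → ℕ → ℝ → ℝ) (p : Σ _ : ℕ, ℕ × ℕ × ℕ × ℕ) (j : ℕ) (x : ℝ) : ℝ :=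
  sysf (ty (p.1 / Q)).2.1 p.2 (U p.1 j x)

/-- a good window; `T s ℓ` is the number of the terms of the class `s` between the start of the stage and the length `ℓ` -/
def GoodU (ty : ℕ → ℕ × ℕ × ℕ) (g Q R G κ : ℕ) (U : ℕ → ℕ → ℝ → ℝ) (T : ℕ → ℝ → ℕ) (K : ℕ) (a ℓ : ℝ) : Prop :=
  (∀ s < g * Q, NBg (U s) (T s ℓ) (R * K) (sysN (ty (s / Q)).2.1 K) a ℓ) ∧
  ∑ p ∈ PP ty g Q K, Pot (GU ty Q U p) (T p.1 ℓ) (R * K) (lamG G K ((K : ℝ) ^ (2 * κ + 1))) a ℓ ≤ 16 ^ K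

/-- the numerical requirements on one level -/
structure Num (κ R DF Cb m G K : ℕ) : Prop where
  hK2 : 2 ≤ K
  hCbK : Cb * (3 * m ^ 2) ≤ K
  hRD : DF * (3 * (R * K)) < K ^ (2 * κ + 1)
  hR2 : (R * K) ^ 2 ≤ K ^ (2 * κ + 1)
  hbig : 8192 * G * K * K ^ (2 * κ + 1) ≤ 2 ^ K
  hB : 12 * K ≤ K ^ (2 * κ + 1)

/-- all functionals are controlled on the windows inside `[a, a + ℓ]` -/
def WdU (ty : ℕ → ℕ × ℕ × ℕ) (τ : ℕ → ℝ) (g Q m : ℕ) (U : ℕ → ℕ → ℝ → ℝ) (T : ℕ → ℝ → ℕ) (K : ℕ) (a ℓ : ℝ) : Prop :=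
  ∀ p ∈ PP ty g Q K, ∀ a' ℓ' : ℝ, 0 < ℓ' → a ≤ a' → a' + ℓ' ≤ a + ℓ →
    Wd (GU ty Q U p) (τ (p.1 / Q) ^ Q) (3 * (m : ℝ) ^ 2 * sysv (ty (p.1 / Q)).2.1 p.2) (T p.1 ℓ') a' ℓ'

/-! ## Nonresonance -/

/-- `α` is not close to a rational number with a small denominator -/
def NRa (D K : ℕ) (α : ℝ) : Prop := ∀ q : ℕ, 1 ≤ q → q ≤ 2 ^ (12 * K + 4) → ∀ p : ℤ, (1 / 2 : ℝ) ^ (D * K) ≤ |q * α - p|

/-- the derivative of `A₀ x ^ (m / P)` -/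
noncomputable def fp (A₀ : ℝ) (P m : ℕ) (x : ℝ) : ℝ := A₀ * ((m : ℝ) / P) * x ^ ((m : ℝ) / P - 1)

/-- `A₀ x ^ (m / P) + cp (m / P)` -/
noncomputable def pwf (A₀ : ℝ) (cp : ℝ → ℝ) (P m : ℕ) (x : ℝ) : ℝ := A₀ * x ^ ((m : ℝ) / P) + cp ((m : ℝ) / P)

/-- the number of the derivatives of the class `e` below `1 / ℓ` at `a` -/
noncomputable def tp (A₀ : ℝ) (P Q e : ℕ) (a ℓ : ℝ) : ℕ := sInf {j : ℕ | 1 ≤ fp A₀ P (Q * j + e) a * ℓ}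

/-- no resonances at `x` -/
def NR (A₀ : ℝ) (P : ℕ) (τ : ℕ → ℝ) (g D K : ℕ) (x : ℝ) : Prop :=
  (∀ m m' : ℕ, 1 ≤ m → m < m' → m' ≤ 2 ^ (3 * K) → fp A₀ P m' x / fp A₀ P m x ≤ 2 ^ (12 * K + 2) → NRa D K (fp A₀ P m' x / fp A₀ P m x)) ∧
  (∀ m : ℕ, 2 * P ≤ m → m ≤ 2 ^ (3 * K) → ∀ h < g, ∀ u ≤ 2 ^ (3 * K),
    (1 ≤ fp A₀ P m x / τ h ^ u → fp A₀ P m x / τ h ^ u ≤ 2 ^ (12 * K + 2) → NRa D K (fp A₀ P m x / τ h ^ u)) ∧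
    (1 ≤ τ h ^ u / fp A₀ P m x → τ h ^ u / fp A₀ P m x ≤ 2 ^ (12 * K + 2) → NRa D K (τ h ^ u / fp A₀ P m x)))

/-! ## The combined families -/

/-- the data of a combined family: the powers `A₀ x ^ (m / P) + cp (m / P)` on `[x₁, x₂]`, the multiples of the powers of `τ h`, `h < g` -/
structure Fam where
  (A₀ x₁ x₂ : ℝ) (P Q g : ℕ) (τ : ℕ → ℝ) (ty : ℕ → ℕ × ℕ × ℕ) (c cp : ℝ → ℝ) (R CF DF Cb m Cq G Cx : ℕ)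

namespace Fam

/-- the bases; the class `g` are the powers -/
noncomputable def τ5 (F : Fam) (h : ℕ) : ℝ := if h < F.g then F.τ h else F.x₁ ^ (1 / (F.P : ℝ))

/-- the types; the class `g` are the powers -/
def ty5 (F : Fam) (h : ℕ) : ℕ × ℕ × ℕ := if h < F.g then F.ty h else (0, 0, 0)

/-- the constants are as they should be -/
structure Ok (F : Fam) : Prop where
  H : Cst4 F.τ5 F.ty5 (F.g + 1) F.Q F.R F.CF F.DF F.Cb F.m F.Cq F.G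
  m12 : 12 ≤ F.m
  hc : ∀ y, RatPow y → F.c y = 0
  hA : 0 < F.A₀
  hP : 1 ≤ F.P
  h1 : 1 < F.x₁
  h12 : F.x₁ ≤ F.x₂
  hDF : (1 + (F.Q : ℝ) / F.P) * F.x₂ ^ ((F.Q : ℝ) / F.P) ≤ 2 ^ F.DF
  hCx : 1 ≤ F.Cx
  hPC : F.P ≤ F.Cx
  hQC : F.Q ≤ F.Cx
  hgC : F.g ≤ F.Cx
  hDC : F.DF ≤ F.Cx
  hA1 : F.A₀ ≤ 2 ^ F.Cx
  hA2 : 1 ≤ F.A₀ * 2 ^ F.Cx
  hx2 : F.x₂ ≤ 2 ^ F.Cx
  hx1 : 2 ≤ F.x₁ ^ F.Cx
  hτx : ∀ h < F.g, 2 ≤ F.τ h ^ F.Cx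

/-- the sequences of the stage that starts with the window `[a₀, a₀ + ℓst]` -/
noncomputable def U (F : Fam) (a₀ ℓst : ℝ) (s j : ℕ) (x : ℝ) : ℝ :=
  if s / F.Q < F.g then Us F.τ5 F.c F.Q ℓst s j x else
    pwf F.A₀ F.cp F.P (F.Q * (tp F.A₀ F.P F.Q (s % F.Q) a₀ ℓst + j) + s % F.Q) x

/-- their derivatives -/
noncomputable def V (F : Fam) (a₀ ℓst : ℝ) (s j : ℕ) (x : ℝ) : ℝ :=
  if s / F.Q < F.g then fr F.τ5 F.Q s (tm F.τ5 F.Q s ℓst + j) else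
    fp F.A₀ F.P (F.Q * (tp F.A₀ F.P F.Q (s % F.Q) a₀ ℓst + j) + s % F.Q) x

/-- their times -/
noncomputable def T (F : Fam) (a₀ ℓst : ℝ) (s : ℕ) (ℓ : ℝ) : ℕ :=
  if s / F.Q < F.g then tm F.τ5 F.Q s ℓ - tm F.τ5 F.Q s ℓst else
    tp F.A₀ F.P F.Q (s % F.Q) a₀ ℓ - tp F.A₀ F.P F.Q (s % F.Q) a₀ ℓst

/-- the requirements on one level; `D` is the constant of the nonresonance -/
structure Big (F : Fam) (κ D K : ℕ) : Prop where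
  num : Num κ F.R F.DF F.Cb F.m F.G K
  hCx : 100 * F.Cx ^ 3 ≤ K
  hK : 100 ≤ K
  hTT : ∃ (Q₀ : ℕ) (ε : ℝ), 2 ^ ((D + 40) * K) ≤ Q₀ ∧
    ((Q₀ : ℝ) + 1) * 2 ^ ((36 + 12 * F.Cq) * K) * 2 ^ (F.DF + 2) ≤ (1 / 2) ^ (12 * K) * 2 ^ (K ^ (2 * κ + 1)) ∧
    0 ≤ ε ∧ ε ≤ (1 / 2) ^ (12 * K) ∧ ∀ h < F.g, ∀ e < F.Q, ∀ ℓ : ℝ, 0 < ℓ → ℓ ≤ 1 → ∃ u : ℕ, u % F.Q = e ∧
    ((Q₀ : ℝ) + 1) * 2 ^ ((24 + 12 * F.Cq) * K) ≤ F.τ5 h ^ u * ℓ ∧ F.τ5 h ^ u * (ℓ / 2 ^ (K ^ (2 * κ + 1))) ≤ 2 * (1 / 2) ^ (12 * K) ∧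
        ∀ h' < F.g, ∀ u' : ℕ, ¬ (h' = h ∧ u' ≡ u [MOD (F.ty5 h).1]) → (1 / 2 : ℝ) ^ (12 * K) < F.τ5 h' ^ u' / F.τ5 h ^ u →
          F.τ5 h' ^ u' / F.τ5 h ^ u < 2 ^ (12 * K) →
          (F.τ5 h' ^ u' ≤ F.τ5 h ^ u ∧ EqA (F.τ5 h ^ u / F.τ5 h' ^ u') Q₀ ε) ∨ (F.τ5 h ^ u ≤ F.τ5 h' ^ u' ∧ EqA (F.τ5 h' ^ u' / F.τ5 h ^ u) Q₀ ε)

/-- the start window of a stage: inside `[x₁, x₂]`, of a good length, without resonances -/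
structure St (F : Fam) (κ D K : ℕ) (a₀ ℓst : ℝ) : Prop where
  lo : F.x₁ ≤ a₀
  hi : a₀ + ℓst ≤ F.x₂
  pos : 0 < ℓst
  sm : ℓst * 2 ^ (K ^ (2 * κ + 2)) ≤ 1
  lg : 1 ≤ ℓst * 2 ^ (2 ^ (2 * K))
  nr : ∀ x ∈ Icc a₀ (a₀ + ℓst), NR F.A₀ F.P F.τ5 F.g D K x

/-- a good window of the stage -/
def Good (F : Fam) (κ : ℕ) (a₀ ℓst : ℝ) (K : ℕ) (a ℓ : ℝ) : Prop :=
  GoodU F.ty5 (F.g + 1) F.Q F.R F.G κ (F.U a₀ ℓst) (F.T a₀ ℓst) K a ℓ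

end Fam

end Pool.Agent.Helper41.LD5
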