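import Pool.Agent.Helper41.LD5.Defs
import Pool.Agent.Helper44.LD3.LEN

/-!
# Project LD5: powers and multiples at once, further definitions
-/

set_option autoImplicit false

namespace Pool.Agent.Helper41.LD5

open Set MeasureTheory Filter Topology
open Pool.Agent.Helper41.LD (av var haar DiscLe Dioph Kk)
open Pool.Agent.Helper41.LD2 (EqA)
open Pool.Agent.Helper41.LD3 (Cst Us tm fr lamG ll)
open Pool.Agent.Helper41.LD4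

open Classical in
/-- there is a test for the class `s'` -/
def TestU (ty : ℕ → ℕ × ℕ × ℕ) (g Q m κ : ℕ) (U : ℕ → ℕ → ℝ → ℝ) (K : ℕ) (a ℓ : ℝ) (s' : ℕ) : Prop :=
  ∃ t < 2 ^ (2 * K), ∀ q' ∈ sysI (ty (s' / Q)).2.1 K,
      (((Finset.range (2 ^ (K ^ (2 * κ + 1)))).filter fun b : ℕ => ¬ ∃ v : ℝ, ∀ x ∈ Ioo (a + b * (ℓ / (2 ^ (K ^ (2 * κ + 1)) : ℕ)))
        (a + (b + 1) * (ℓ / (2 ^ (K ^ (2 * κ + 1)) : ℕ))), sysf (ty (s' / Q)).2.1 q' (U s' t x) = v).card : ℝ) ≤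
          sysN (ty (s' / Q)).2.1 K * (2 * (1 / 2) ^ (12 * K) * (2 ^ (K ^ (2 * κ + 1)) : ℕ)) + 1 ∧
      |av (fun x => sysf (ty (s' / Q)).2.1 q' (U s' t x)) a ℓ| ≤ m * (1 / 2) ^ (24 * K) ∧
      ∀ s < g * Q, ∀ q ∈ sysI (ty (s / Q)).2.1 K, ∀ j < 2 ^ (2 * K),
        |av (fun x => sysf (ty (s / Q)).2.1 q (U s j x) * sysf (ty (s' / Q)).2.1 q' (U s' t x)) a ℓ -
          (if s = s' ∧ j = t ∧ q = q' then sysv (ty (s / Q)).2.1 q else 0)| ≤ 6 * (m : ℝ) ^ 2 * (1 / 2) ^ (12 * K)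

/-- the number of the terms of `A₀ x ^ (e n / P)` with a derivative below `1 / ℓ` at `x` -/
noncomputable def nuP (A₀ : ℝ) (P e : ℕ) (x ℓ : ℝ) : ℕ := sInf {n : ℕ | 1 ≤ fp A₀ P (e * n) x * ℓ}

/-- the lengths: `L₀`, then `ll` -/
noncomputable def len5 (κ K₀ : ℕ) (L₀ : ℝ) (k : ℕ) : ℝ := if k = 0 then L₀ else ll κ K₀ (L₀ / 2 ^ ((4 * K₀) ^ (2 * κ + 2))) (k - 1)

/-- the numbers of the children -/
def num5 (κ K₀ k : ℕ) : ℕ := if k = 0 then 2 ^ ((4 * K₀) ^ (2 * κ + 2)) else 2 ^ (Kk K₀ (k - 1) ^ (2 * κ + 1))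

/-- the proportions -/
noncomputable def pro5 (K₀ k : ℕ) : ℝ := if k = 0 then 1 else (1 / 2) ^ (3 * Kk K₀ (k - 1))

/-- the data of the phase family: the bases `θ 0, …, θ σ` and the powers `r 0, …, r σ` -/
structure SD5 (κ : ℕ) (A₀ x₁ x₂ : ℝ) (c cp : ℝ → ℝ) (θ : ℕ → ℝ) (r : ℕ → ℚ) (σ : ℕ) where
  F : Fam
  ok : F.Ok
  hA : F.A₀ = A₀
  hx₁ : F.x₁ = x₁
  hx₂ : F.x₂ = x₂
  hc : F.c = c
  hcp : F.cp = cp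
  big : ∀ᶠ K : ℕ in atTop, F.Big κ 1000 K
  cl : ℕ → ℕ
  e : ℕ → ℕ
  a : ℕ → ℕ
  hcl : ∀ i ≤ σ, cl i < F.g
  he : ∀ i ≤ σ, 1 ≤ e i
  heQ : ∀ i ≤ σ, e i ∣ F.Q
  hθ : ∀ i ≤ σ, θ i = F.τ (cl i) ^ e i
  ha : ∀ i ≤ σ, 1 ≤ a i
  haQ : ∀ i ≤ σ, a i ∣ F.Q
  hr : ∀ i ≤ σ, (r i : ℝ) = a i / F.P

end Pool.Agent.Helper41.LD5
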