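import Pool.Agent.Helper41.LD5.Defs2
import Pool.Agent.Helper41.LD4.Main
import Pool.Agent.Helper8.LD5.CLS1
import Pool.Agent.Helper8.LD5.FNB2
import Pool.Agent.Helper9.LD5.Fam
import Pool.Agent.Helper14.LD5.TST1
import Pool.Agent.Helper17.LD5.Cls2
import Pool.Agent.Helper30.LD5.EV
import Pool.Agent.Helper34.LD5.Bad
import Pool.Agent.Helper44.LD5.Nu
import Pool.Agent.Helper46.LD5.STA
import Pool.Agent.Helper52.LD5.STP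
import Pool.Agent.Helper64.LD5.LEN
import Pool.Agent.Helper65.LD5.PC
import Pool.Agent.Helper65.LD5.TST2F
import Pool.Agent.Helper77.LD5.FWF
import Pool.Agent.Helper89.LD5.Dim

/-!
# Project LD5: powers and multiples at once, the main theorem
-/

set_option autoImplicit false

namespace Pool.Agent.Helper41.LD5

open Set MeasureTheory Filter Topology
open Pool.Agent.Helper41.LD (av var haar DiscLe Dioph Kk Kk_mono Kk_succ Kk_ge Kk_tendsto)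
open Pool.Agent.Helper41.LD2 (EqA dimH_le_one)
open Pool.Agent.Helper41.LD3 (Cst Us tm fr lamG ll nu ll_pos ll_succ ll_anti ll_tendsto nu_mono nu_succ nu_ge)
open Pool.Agent.Helper41.LD4 (kp kp_zero kp_strict Kk_phase exists_phase phase_len ll_phase tm_phase nu_phase fam fam_spec le_fam RatPow Cst4 PP sysI sysf
  sysv sysN NBg)
open Pool.Agent.Helper31.LD4 (asm4)
open Pool.Agent.Helper8.LD5 (cls_lin fam_nb)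
open Pool.Agent.Helper14.LD5 (test_lin)
open Pool.Agent.Helper17.LD5 (cls_pow)
open Pool.Agent.Helper30.LD5 (ev_big5)
open Pool.Agent.Helper34.LD5 (nr_cover)
open Pool.Agent.Helper44.LD5 (nuP_mono nuP_succ nuP_ge tp_phase)
open Pool.Agent.Helper46.LD5 (stage_start5 stage_sums5)
open Pool.Agent.Helper52.LD5 (stage_step5)
open Pool.Agent.Helper65.LD5 (stage_PC5 test_pow)
open Pool.Agent.Helper77.LD5 (fam_meas fam_blk fam_Wd)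
open Pool.Agent.Helper89.LD5 (dim_exc)

theorem exists_SD5 {κ : ℕ} (hκ : 1 ≤ κ) {A₀ x₁ x₂ : ℝ} (hA : 0 < A₀) (h1 : 1 < x₁) (h12 : x₁ ≤ x₂) {c cp : ℝ → ℝ} (hc : ∀ y, RatPow y → c y = 0)
    {θ : ℕ → ℝ} (hθ : ∀ i, 1 < θ i ∧ (Dioph (θ i) κ ∨ RatPow (θ i))) {r : ℕ → ℚ} (hr : ∀ i, 0 < r i) (σ : ℕ) :
    Nonempty (SD5 κ A₀ x₁ x₂ c cp θ r σ) :=
  Pool.Agent.Helper9.LD5.exists_SD5_of (fun hκ hF h => ev_big5 hκ hF h) hκ hA h1 h12 hc hθ hr σ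

/-! ## One stage -/

theorem Num.count {κ : ℕ} {τ : ℕ → ℝ} {ty : ℕ → ℕ × ℕ × ℕ} {g Q R CF DF Cb m Cq G K : ℕ} (H : Cst4 τ ty g Q R CF DF Cb m Cq G)
    (B : Num κ R DF Cb m G K) {n l : ℕ} (hn : n ≤ 2 ^ (K + 1) * (G * K ^ (2 * κ + 1)))
    (hl : l ≤ CF * K ^ (2 * κ + 1)) : n + l + R * K ≤ 2 ^ (2 * K) := by
  obtain ⟨hmG, hCFG, hCbG, hG1, -⟩ := H.G_ge
  have hbig := B.hbig
  have hK2 := B.hK2
  have hL1 : 1 ≤ K ^ (2 * κ + 1) := Nat.one_le_pow _ _ (by omega)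
  have hRL : R * K ≤ K ^ (2 * κ + 1) := by
    rcases Nat.eq_zero_or_pos (R * K) with h0 | h0
    · rw [h0]; exact Nat.zero_le _
    · exact (Nat.le_self_pow two_ne_zero _).trans B.hR2
  set Λ := K ^ (2 * κ + 1) with hΛ
  have h1 : 8192 * (G * Λ) ≤ 2 ^ K := by
    calc 8192 * (G * Λ) ≤ 8192 * (G * Λ) * K := Nat.le_mul_of_pos_right _ (by omega)
      _ = 8192 * G * K * Λ := by ring
      _ ≤ _ := hbig
  have h2 : l ≤ G * Λ := hl.trans (Nat.mul_le_mul_right _ hCFG)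
  have h3 : R * K ≤ G * Λ := hRL.trans (Nat.le_mul_of_pos_left _ hG1)
  have h4 : (2 : ℕ) ^ (2 * K) = 2 ^ K * 2 ^ K := by rw [two_mul, pow_add]
  have h5 : 2 ^ (K + 1) * (G * Λ) = 2 ^ K * (2 * (G * Λ)) := by rw [pow_succ]; ring
  have h6 : 1 ≤ 2 ^ K := Nat.one_le_two_pow
  have h7 : G * Λ ≤ 2 ^ K * (G * Λ) := Nat.le_mul_of_pos_left _ h6
  have h8 : 2 ^ K * (8192 * (G * Λ)) ≤ 2 ^ K * 2 ^ K := Nat.mul_le_mul_left _ h1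
  rw [h4]
  nlinarith

section

variable {F : Fam} {κ D K : ℕ} {a₀ ℓst a ℓ x : ℝ}

theorem cls_lt {F : Fam} {s : ℕ} (hs : s < (F.g + 1) * F.Q) : s / F.Q < F.g + 1 := Nat.div_lt_of_lt_mul (by rw [mul_comm]; exact hs)

open Classical in
/-- one block of a stage -/
theorem fam_step (hF : F.Ok) (hκ : 1 ≤ κ) (B : F.Big κ D K) (S : F.St κ D K a₀ ℓst) (hℓ : 0 < ℓ) (h1 : a₀ ≤ a) (h2 : a + ℓ ≤ a₀ + ℓst)
    (hT : ∀ s < (F.g + 1) * F.Q, F.T a₀ ℓst s ℓ ≤ 2 ^ (K + 1) * (F.G * K ^ (2 * κ + 1))) (hgood : F.Good κ a₀ ℓst K a ℓ) :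
    (1 / 2 : ℝ) ^ (3 * K) * ((2 ^ (K ^ (2 * κ + 1)) : ℕ) : ℝ) ≤ (((Finset.range (2 ^ (K ^ (2 * κ + 1)))).filter fun b : ℕ =>
      F.Good κ a₀ ℓst K (a + b * (ℓ / (2 ^ (K ^ (2 * κ + 1)) : ℕ))) (ℓ / (2 ^ (K ^ (2 * κ + 1)) : ℕ))).card : ℝ) := by
  have hℓst : ℓ ≤ ℓst := by linarith
  have hblk := fun s (hs : s < (F.g + 1) * F.Q) => fam_blk hF hκ B S hℓ hℓst hs
  have hcount : ∀ s < (F.g + 1) * F.Q, F.T a₀ ℓst s (ℓ / 2 ^ (K ^ (2 * κ + 1))) + F.R * K ≤ 2 ^ (2 * K) := by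
    intro s hs
    have h3 := Num.count hF.H B.num (hT s hs) le_rfl
    have h4 := (hblk s hs).1
    omega
  have hW := fam_Wd hF hκ B S h1 h2
  have hmeas : ∀ s < (F.g + 1) * F.Q, ∀ j, Measurable (F.U a₀ ℓst s j) := fun s _ j => fam_meas F a₀ ℓst s j
  refine stage_step5 hF.H B.num hℓ hmeas hblk hcount hW (fun s hs => fam_nb hF hκ B S hℓ h1 h2 hcount hs) ?_ hgood
  refine stage_PC5 hF.H B.num hℓ hmeas (fun s hs => by have := (hblk s hs).2; omega) hcount hW fun s' hs' => ?_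
  rcases Nat.lt_succ_iff_lt_or_eq.1 (cls_lt hs') with h3 | h3
  · exact test_lin hF hκ B S hℓ h1 h2 hcount h3
  · exact test_pow hF hκ B S hℓ h1 h2 hcount h3

/-- the start of a stage -/
theorem fam_start (hF : F.Ok) (hκ : 1 ≤ κ) (B : F.Big κ D K) (S : F.St κ D K a₀ ℓst) : F.Good κ a₀ ℓst K a₀ ℓst := by
  refine stage_start5 hF.H B.num S.pos (fun s _ => ?_) (fam_Wd hF hκ B S le_rfl le_rfl)
  unfold Fam.T
  split_ifs <;> exact Nat.sub_self _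

end

/-! ## The tree -/

section

variable {κ : ℕ} {A₀ x₁ x₂ : ℝ} {c cp : ℝ → ℝ} {θ : ℕ → ℝ} {r : ℕ → ℚ}

/-- a good window of level `k` -/
def GoodM (D : ∀ σ, SD5 κ A₀ x₁ x₂ c cp θ r σ) (fm : ℕ → ℕ) (K₀ : ℕ) (ℓ₀ : ℝ) (k : ℕ) (a : ℝ) : Prop :=
  ∀ σ, kp σ < k → k ≤ kp (σ + 1) → ∃ a₀, (D (fm σ)).F.St κ 1000 (K₀ + σ) a₀ (ll κ K₀ ℓ₀ (kp σ)) ∧ a₀ ≤ a ∧
    a + ll κ K₀ ℓ₀ k ≤ a₀ + ll κ K₀ ℓ₀ (kp σ) ∧ (D (fm σ)).F.Good κ a₀ (ll κ K₀ ℓ₀ (kp σ)) (K₀ + σ) a (ll κ K₀ ℓ₀ k)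

/-- the radius of the resonances -/
noncomputable def rad (K₀ σ : ℕ) : ℝ := (1 / 2) ^ (998 * (K₀ + σ))

/-- a window inside a start window that meets a resonance -/
def Dead (κ : ℕ) (E : ℕ → Finset ℝ) (K₀ : ℕ) (ℓ₀ : ℝ) (k : ℕ) (a : ℝ) : Prop :=
  ∃ (σ : ℕ) (a' : ℝ), kp σ ≤ k ∧ a' ≤ a ∧ a + ll κ K₀ ℓ₀ k ≤ a' + ll κ K₀ ℓ₀ (kp σ) ∧
    ∃ y ∈ E σ, ∃ z ∈ Icc a' (a' + ll κ K₀ ℓ₀ (kp σ)), z ∈ Icc (y - rad K₀ σ) (y + rad K₀ σ)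

/-- the nodes of the tree -/
def Nd (D : ∀ σ, SD5 κ A₀ x₁ x₂ c cp θ r σ) (fm : ℕ → ℕ) (E : ℕ → Finset ℝ) (K₀ : ℕ) (ℓ₀ : ℝ) (k : ℕ) (a : ℝ) : Prop :=
  (k = 0 ∧ a = x₁) ∨ (1 ≤ k ∧ x₁ ≤ a ∧ a + ll κ K₀ ℓ₀ (k - 1) ≤ x₂ ∧ (Dead κ E K₀ ℓ₀ (k - 1) a ∨ GoodM D fm K₀ ℓ₀ (k - 1) a))

/-- the requirements -/
structure Rq (D : ∀ σ, SD5 κ A₀ x₁ x₂ c cp θ r σ) (fm : ℕ → ℕ) (E : ℕ → Finset ℝ) (K₀ : ℕ) (ℓ₀ : ℝ) : Prop where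
  hκ : 1 ≤ κ
  h1 : 1 < x₁
  pos : 0 < ℓ₀
  big : ∀ σ, (D (fm σ)).F.Big κ 1000 (K₀ + σ)
  len : ∀ σ, ll κ K₀ ℓ₀ (kp σ) * 2 ^ ((K₀ + σ) ^ (2 * κ + 2)) ≤ 1 ∧ 1 ≤ ll κ K₀ ℓ₀ (kp σ) * 2 ^ (2 ^ (2 * (K₀ + σ)))
  cov : ∀ σ, ∀ x ∈ Icc x₁ x₂, (∀ y ∈ E σ, x ∉ Icc (y - rad K₀ σ) (y + rad K₀ σ)) →
    NR (D (fm σ)).F.A₀ (D (fm σ)).F.P (D (fm σ)).F.τ5 (D (fm σ)).F.g 1000 (K₀ + σ) x

variable {D : ∀ σ, SD5 κ A₀ x₁ x₂ c cp θ r σ} {fm : ℕ → ℕ} {E : ℕ → Finset ℝ} {K₀ : ℕ} {ℓ₀ : ℝ}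

theorem child_in {a ℓ : ℝ} (hℓ : 0 < ℓ) {B b : ℕ} (hb : b < B) : a ≤ a + b * (ℓ / B) ∧ a + b * (ℓ / B) + ℓ / B ≤ a + ℓ := by
  have hB0 : (0 : ℝ) < B := by exact_mod_cast (by omega : 0 < B)
  have h1 : 0 < ℓ / B := div_pos hℓ hB0
  have h2 : (b : ℝ) + 1 ≤ B := by exact_mod_cast hb
  have h3 : ((b : ℝ) + 1) * (ℓ / B) ≤ B * (ℓ / B) := mul_le_mul_of_nonneg_right h2 h1.le
  rw [mul_div_cancel₀ _ hB0.ne'] at h3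
  have h4 : (0 : ℝ) ≤ b * (ℓ / B) := by positivity
  constructor <;> linarith

/-- the steps inside a phase -/
theorem T_phase (R : Rq D fm E K₀ ℓ₀) {σ k : ℕ} (h1 : kp σ ≤ k) (h2 : k ≤ kp (σ + 1)) {a₀ : ℝ} (ha : x₁ ≤ a₀) {s : ℕ}
    (hs : s < ((D (fm σ)).F.g + 1) * (D (fm σ)).F.Q) :
    (D (fm σ)).F.T a₀ (ll κ K₀ ℓ₀ (kp σ)) s (ll κ K₀ ℓ₀ k) ≤ 2 ^ (K₀ + σ + 1) * ((D (fm σ)).F.G * (K₀ + σ) ^ (2 * κ + 1)) := by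
  unfold Fam.T
  split_ifs with h3
  · exact tm_phase (D (fm σ)).ok.H.base R.pos K₀ hs h1 h2
  · exact tp_phase (D (fm σ)).ok (by rw [(D (fm σ)).hx₁]; exact ha) R.pos K₀ _ h1 h2

/-- a good window that is not dead has a start window -/
theorem good_at (R : Rq D fm E K₀ ℓ₀) {k : ℕ} {a : ℝ} (ha1 : x₁ ≤ a) (ha2 : a + ll κ K₀ ℓ₀ k ≤ x₂) (hd : ¬ Dead κ E K₀ ℓ₀ k a)
    (hg : GoodM D fm K₀ ℓ₀ k a) {σ : ℕ} (h1 : kp σ ≤ k) (h2 : k ≤ kp (σ + 1)) :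
    ∃ a₀, (D (fm σ)).F.St κ 1000 (K₀ + σ) a₀ (ll κ K₀ ℓ₀ (kp σ)) ∧ a₀ ≤ a ∧
      a + ll κ K₀ ℓ₀ k ≤ a₀ + ll κ K₀ ℓ₀ (kp σ) ∧ (D (fm σ)).F.Good κ a₀ (ll κ K₀ ℓ₀ (kp σ)) (K₀ + σ) a (ll κ K₀ ℓ₀ k) := by
  rcases eq_or_lt_of_le h1 with h3 | h3
  · subst h3
    have hp := ll_pos (κ := κ) R.pos K₀ (kp σ)
    have hS : (D (fm σ)).F.St κ 1000 (K₀ + σ) a (ll κ K₀ ℓ₀ (kp σ)) := by
      refine ⟨by rw [(D (fm σ)).hx₁]; exact ha1, by rw [(D (fm σ)).hx₂]; exact ha2, hp, (R.len σ).1, (R.len σ).2, fun x hx => ?_⟩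
      refine R.cov σ x ⟨ha1.trans hx.1, hx.2.trans ha2⟩ fun y hy hxy => hd ?_
      exact ⟨σ, a, le_rfl, le_rfl, le_rfl, y, hy, x, hx, hxy⟩
    exact ⟨a, hS, le_rfl, le_rfl, fam_start (D (fm σ)).ok R.hκ (R.big σ) hS⟩
  · exact hg σ h3 h2

/-- one step of the tree -/
theorem nd_step (R : Rq D fm E K₀ ℓ₀) (k : ℕ) (a : ℝ) (ha1 : x₁ ≤ a) (ha2 : a + ll κ K₀ ℓ₀ k ≤ x₂)
    (h : Dead κ E K₀ ℓ₀ k a ∨ GoodM D fm K₀ ℓ₀ k a) :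
    (1 / 2 : ℝ) ^ (3 * Kk K₀ k) * ((2 ^ (Kk K₀ k ^ (2 * κ + 1)) : ℕ) : ℝ) ≤
      (by classical exact (((Finset.range (2 ^ (Kk K₀ k ^ (2 * κ + 1)))).filter fun b : ℕ =>
        x₁ ≤ a + b * ll κ K₀ ℓ₀ (k + 1) ∧ a + b * ll κ K₀ ℓ₀ (k + 1) + ll κ K₀ ℓ₀ (k + 1) ≤ x₂ ∧
        (Dead κ E K₀ ℓ₀ (k + 1) (a + b * ll κ K₀ ℓ₀ (k + 1)) ∨ GoodM D fm K₀ ℓ₀ (k + 1) (a + b * ll κ K₀ ℓ₀ (k + 1)))).card : ℝ)) := by
  classical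
  have hp := ll_pos (κ := κ) R.pos K₀ k
  have hsucc : ll κ K₀ ℓ₀ (k + 1) = ll κ K₀ ℓ₀ k / ((2 ^ (Kk K₀ k ^ (2 * κ + 1)) : ℕ) : ℝ) := by
    rw [ll_succ]
    push_cast
    rfl
  have hin : ∀ b : ℕ, b < 2 ^ (Kk K₀ k ^ (2 * κ + 1)) → a ≤ a + b * ll κ K₀ ℓ₀ (k + 1) ∧
      a + b * ll κ K₀ ℓ₀ (k + 1) + ll κ K₀ ℓ₀ (k + 1) ≤ a + ll κ K₀ ℓ₀ k := by
    intro b hb
    rw [hsucc]
    exact child_in hp hb
  by_cases hd : Dead κ E K₀ ℓ₀ k a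
  · -- all children are dead
    have h1 : ((Finset.range (2 ^ (Kk K₀ k ^ (2 * κ + 1)))).filter fun b : ℕ =>
        x₁ ≤ a + b * ll κ K₀ ℓ₀ (k + 1) ∧ a + b * ll κ K₀ ℓ₀ (k + 1) + ll κ K₀ ℓ₀ (k + 1) ≤ x₂ ∧
        (Dead κ E K₀ ℓ₀ (k + 1) (a + b * ll κ K₀ ℓ₀ (k + 1)) ∨ GoodM D fm K₀ ℓ₀ (k + 1) (a + b * ll κ K₀ ℓ₀ (k + 1)))) =
        Finset.range (2 ^ (Kk K₀ k ^ (2 * κ + 1))) := by
      rw [Finset.filter_eq_self]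
      intro b hb
      obtain ⟨h2, h3⟩ := hin b (Finset.mem_range.1 hb)
      refine ⟨ha1.trans h2, h3.trans ha2, Or.inl ?_⟩
      obtain ⟨σ, a', e1, e2, e3, e4⟩ := hd
      exact ⟨σ, a', by omega, e2.trans h2, h3.trans e3, e4⟩
    have h2 : (1 / 2 : ℝ) ^ (3 * Kk K₀ k) * ((2 ^ (Kk K₀ k ^ (2 * κ + 1)) : ℕ) : ℝ) ≤ ((2 ^ (Kk K₀ k ^ (2 * κ + 1)) : ℕ) : ℝ) :=
      mul_le_of_le_one_left (Nat.cast_nonneg _) (pow_le_one₀ (by norm_num) (by norm_num))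
    refine h2.trans (le_of_eq ?_)
    have h3 := congrArg Finset.card h1
    rw [Finset.card_range] at h3
    exact_mod_cast h3.symm
  · have hg : GoodM D fm K₀ ℓ₀ k a := h.resolve_left hd
    obtain ⟨σ, hσ1, hσ2⟩ := exists_phase k
    obtain ⟨a₀, hS, h3, h4, h5⟩ := good_at R ha1 ha2 hd hg hσ1 hσ2.le
    have hKk := Kk_phase K₀ hσ1 hσ2
    have h6 := fam_step (D (fm σ)).ok R.hκ (R.big σ) hS hp h3 h4
      (fun s hs => T_phase R hσ1 hσ2.le (by have := hS.lo; rwa [(D (fm σ)).hx₁] at this) hs) h5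
    rw [hKk] at hin hsucc ⊢
    refine h6.trans ?_
    have h7 : ((Finset.range (2 ^ ((K₀ + σ) ^ (2 * κ + 1)))).filter fun b : ℕ =>
        (D (fm σ)).F.Good κ a₀ (ll κ K₀ ℓ₀ (kp σ)) (K₀ + σ) (a + b * (ll κ K₀ ℓ₀ k / (2 ^ ((K₀ + σ) ^ (2 * κ + 1)) : ℕ)))
          (ll κ K₀ ℓ₀ k / (2 ^ ((K₀ + σ) ^ (2 * κ + 1)) : ℕ))) ⊆
        ((Finset.range (2 ^ ((K₀ + σ) ^ (2 * κ + 1)))).filter fun b : ℕ =>
          x₁ ≤ a + b * ll κ K₀ ℓ₀ (k + 1) ∧ a + b * ll κ K₀ ℓ₀ (k + 1) + ll κ K₀ ℓ₀ (k + 1) ≤ x₂ ∧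
          (Dead κ E K₀ ℓ₀ (k + 1) (a + b * ll κ K₀ ℓ₀ (k + 1)) ∨ GoodM D fm K₀ ℓ₀ (k + 1) (a + b * ll κ K₀ ℓ₀ (k + 1)))) := by
      intro b hb
      rw [Finset.mem_filter] at hb ⊢
      obtain ⟨h8, h9⟩ := hin b (Finset.mem_range.1 hb.1)
      refine ⟨hb.1, ha1.trans h8, h9.trans ha2, Or.inr fun σ' e1 e2 => ?_⟩
      have e3 : σ' = σ := by
        rcases lt_trichotomy σ' σ with e | e | e
        · have := kp_strict.monotone (show σ' + 1 ≤ σ by omega)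
          omega
        · exact e
        · have := kp_strict.monotone (show σ + 1 ≤ σ' by omega)
          omega
      subst e3
      refine ⟨a₀, hS, h3.trans h8, h9.trans h4, ?_⟩
      rw [hsucc]
      exact hb.2
    have h8 := Finset.card_le_card h7
    convert (Nat.cast_le (α := ℝ)).2 h8 using 2

/-! ## The sums over the phases -/

/-- the constant of a family -/
def cF (F : Fam) : ℕ := 1400000 * F.m ^ 3 * F.Q * F.G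

theorem sums_at (R : Rq D fm E K₀ ℓ₀) {x : ℝ} {σ k : ℕ} {a₀ a : ℝ} (hS : (D (fm σ)).F.St κ 1000 (K₀ + σ) a₀ (ll κ K₀ ℓ₀ (kp σ)))
    (h3 : a₀ ≤ a) (h4 : a + ll κ K₀ ℓ₀ k ≤ a₀ + ll κ K₀ ℓ₀ (kp σ))
    (h5 : (D (fm σ)).F.Good κ a₀ (ll κ K₀ ℓ₀ (kp σ)) (K₀ + σ) a (ll κ K₀ ℓ₀ k)) (hx : x ∈ Icc a (a + ll κ K₀ ℓ₀ k)) {s : ℕ}
    (hs : s < ((D (fm σ)).F.g + 1) * (D (fm σ)).F.Q) {q : ℕ × ℕ × ℕ × ℕ} (hq : q ∈ sysI ((D (fm σ)).F.ty5 (s / (D (fm σ)).F.Q)).2.1 (K₀ + σ)) :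
    |∑ j ∈ Finset.range ((D (fm σ)).F.T a₀ (ll κ K₀ ℓ₀ (kp σ)) s (ll κ K₀ ℓ₀ k)), sysf ((D (fm σ)).F.ty5 (s / (D (fm σ)).F.Q)).2.1 q
      ((D (fm σ)).F.U a₀ (ll κ K₀ ℓ₀ (kp σ)) s j x)| ≤ 33000 * (D (fm σ)).F.G * ((K₀ + σ : ℕ) : ℝ) ^ (2 * κ + 3) :=
  stage_sums5 (D (fm σ)).ok.H (R.big σ).num (ll_pos R.pos K₀ k) (fam_Wd (D (fm σ)).ok R.hκ (R.big σ) hS h3 h4) h5 hx hs hq

/-- `x` is in good windows of all levels that are not dead -/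
def Pt (D : ∀ σ, SD5 κ A₀ x₁ x₂ c cp θ r σ) (fm : ℕ → ℕ) (E : ℕ → Finset ℝ) (K₀ : ℕ) (ℓ₀ x : ℝ) : Prop :=
  ∀ k, ∃ a, x₁ ≤ a ∧ a + ll κ K₀ ℓ₀ k ≤ x₂ ∧ ¬ Dead κ E K₀ ℓ₀ k a ∧ GoodM D fm K₀ ℓ₀ k a ∧ x ∈ Icc a (a + ll κ K₀ ℓ₀ k)

theorem cls_idx {g Q h u : ℕ} (hh : h < g) (hu : u < Q) : Q * h + u < g * Q ∧ (Q * h + u) / Q = h ∧ (Q * h + u) % Q = u := by
  refine ⟨?_, ?_, ?_⟩
  · calc Q * h + u < Q * h + Q := by omega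
      _ = Q * (h + 1) := by ring
      _ ≤ Q * g := Nat.mul_le_mul_left _ hh
      _ = _ := by ring
  · rw [Nat.mul_add_div (by omega), Nat.div_eq_of_lt hu, add_zero]
  · rw [Nat.mul_add_mod, Nat.mod_eq_of_lt hu]

/-- the discrepancy over one phase, for one base -/
theorem sum_lin (R : Rq D fm E K₀ ℓ₀) {x : ℝ} (hx : Pt D fm E K₀ ℓ₀ x)
    {i σ : ℕ} (hi : i ≤ fm σ) {k : ℕ} (h1 : kp σ ≤ k) (h2 : k ≤ kp (σ + 1)) {α γ : ℝ} (hα : 0 ≤ α) (hαγ : α ≤ γ) (hγ : γ ≤ 1) :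
    |(((Finset.Ico (nu κ K₀ ℓ₀ (θ i) (kp σ)) (nu κ K₀ ℓ₀ (θ i) k)).filter fun n : ℕ =>
        α ≤ Int.fract (x * θ i ^ n + c (θ i ^ n)) ∧ Int.fract (x * θ i ^ n + c (θ i ^ n)) < γ).card : ℝ) -
      ((nu κ K₀ ℓ₀ (θ i) k : ℝ) - nu κ K₀ ℓ₀ (θ i) (kp σ)) * (γ - α)| ≤
      (cF (D (fm σ)).F : ℕ) * ((K₀ + σ : ℕ) : ℝ) ^ (2 * κ + 4) := by
  obtain ⟨a, ha1, ha2, hd, hg, hxa⟩ := hx k
  obtain ⟨a₀, hS, h3, h4, h5⟩ := good_at R ha1 ha2 hd hg h1 h2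
  have hok := (D (fm σ)).ok
  have hcl := (D (fm σ)).hcl i hi
  have hQ := hok.H.base.hQ
  have hτ5 : (D (fm σ)).F.τ5 ((D (fm σ)).cl i) = (D (fm σ)).F.τ ((D (fm σ)).cl i) := by
    unfold Fam.τ5
    rw [if_pos hcl]
  have hθi : θ i = (D (fm σ)).F.τ5 ((D (fm σ)).cl i) ^ (D (fm σ)).e i := by
    rw [hτ5]
    exact (D (fm σ)).hθ i hi
  have hcl' : (D (fm σ)).cl i < (D (fm σ)).F.g + 1 := by omega
  have h6 := cls_lin hok.H (R.big σ).num.hK2 hok.hc (ll_pos (κ := κ) R.pos K₀ k) (ll_anti (κ := κ) R.pos K₀ h1) (x := x) hcl'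
    ((D (fm σ)).he i hi) ((D (fm σ)).heQ i hi)
    (fun u hu => tm_phase hok.H.base R.pos K₀ (cls_idx hcl' hu).1 h1 h2) (fun u hu q hq => by
      obtain ⟨i1, i2, i3⟩ := cls_idx hcl' hu
      have h7 := sums_at R hS h3 h4 h5 hxa i1 (q := q) (by rw [i2]; exact hq)
      rw [i2] at h7
      have e1 : ∀ ℓ, (D (fm σ)).F.T a₀ (ll κ K₀ ℓ₀ (kp σ)) ((D (fm σ)).F.Q * (D (fm σ)).cl i + u) ℓ =
          tm (D (fm σ)).F.τ5 (D (fm σ)).F.Q ((D (fm σ)).F.Q * (D (fm σ)).cl i + u) ℓ -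
            tm (D (fm σ)).F.τ5 (D (fm σ)).F.Q ((D (fm σ)).F.Q * (D (fm σ)).cl i + u) (ll κ K₀ ℓ₀ (kp σ)) := by
        intro ℓ
        unfold Fam.T
        rw [if_pos (by rw [i2]; exact hcl)]
      have e2 : ∀ j x, (D (fm σ)).F.U a₀ (ll κ K₀ ℓ₀ (kp σ)) ((D (fm σ)).F.Q * (D (fm σ)).cl i + u) j x =
          Us (D (fm σ)).F.τ5 (D (fm σ)).F.c (D (fm σ)).F.Q (ll κ K₀ ℓ₀ (kp σ)) ((D (fm σ)).F.Q * (D (fm σ)).cl i + u) j x := by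
        intro j x
        unfold Fam.U
        rw [if_pos (by rw [i2]; exact hcl)]
      rw [e1] at h7
      simp only [e2] at h7
      exact h7)
    (nu_phase hok.H.base R.pos K₀ hcl' h1 h2) hα hαγ hγ
  unfold nu
  rw [hθi]
  rw [(D (fm σ)).hc] at h6
  exact h6

/-- the powers as functions of the real exponent -/
noncomputable def tpow (A₀ : ℝ) (cp : ℝ → ℝ) (ρ x : ℝ) (n : ℕ) : ℝ := A₀ * x ^ (ρ * n) + cp (ρ * n)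

noncomputable def nuR (A₀ ρ x ℓ : ℝ) : ℕ := sInf {n : ℕ | 1 ≤ A₀ * (ρ * n) * x ^ (ρ * n - 1) * ℓ}

theorem nuP_eq (A₀ x ℓ : ℝ) {P e : ℕ} {ρ : ℝ} (h : ρ = e / P) : nuP A₀ P e x ℓ = nuR A₀ ρ x ℓ := by
  unfold nuP nuR fp
  have h1 : ∀ n : ℕ, ((e * n : ℕ) : ℝ) / P = ρ * n := fun n => by rw [h]; push_cast; ring
  simp only [h1]

theorem pwf_eq (A₀ x : ℝ) (cp : ℝ → ℝ) {P e : ℕ} {ρ : ℝ} (h : ρ = e / P) (n : ℕ) : pwf A₀ cp P (e * n) x = tpow A₀ cp ρ x n := by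
  unfold pwf tpow
  have h1 : ((e * n : ℕ) : ℝ) / P = ρ * n := by rw [h]; push_cast; ring
  rw [h1]

/-- the discrepancy over one phase, for one power -/
theorem sum_pow (R : Rq D fm E K₀ ℓ₀) {x : ℝ} (hx : Pt D fm E K₀ ℓ₀ x)
    {i σ : ℕ} (hi : i ≤ fm σ) {k : ℕ} (h1 : kp σ ≤ k) (h2 : k ≤ kp (σ + 1)) {α γ : ℝ} (hα : 0 ≤ α) (hαγ : α ≤ γ) (hγ : γ ≤ 1) :
    |(((Finset.Ico (nuR A₀ (r i) x (ll κ K₀ ℓ₀ (kp σ))) (nuR A₀ (r i) x (ll κ K₀ ℓ₀ k))).filter fun n : ℕ =>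
        α ≤ Int.fract (tpow A₀ cp (r i) x n) ∧ Int.fract (tpow A₀ cp (r i) x n) < γ).card : ℝ) -
      ((nuR A₀ (r i) x (ll κ K₀ ℓ₀ k) : ℝ) - nuR A₀ (r i) x (ll κ K₀ ℓ₀ (kp σ))) * (γ - α)| ≤
      (cF (D (fm σ)).F : ℕ) * ((K₀ + σ : ℕ) : ℝ) ^ (2 * κ + 4) := by
  obtain ⟨a, ha1, ha2, hd, hg, hxa⟩ := hx k
  obtain ⟨a₀, hS, h3, h4, h5⟩ := good_at R ha1 ha2 hd hg h1 h2
  have hok := (D (fm σ)).ok
  have hr := (D (fm σ)).hr i hi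
  have hgg : (D (fm σ)).F.g < (D (fm σ)).F.g + 1 := Nat.lt_succ_self _
  have hng : ¬ (D (fm σ)).F.g < (D (fm σ)).F.g := lt_irrefl _
  have hty : (D (fm σ)).F.ty5 (D (fm σ)).F.g = (0, 0, 0) := by
    unfold Fam.ty5
    rw [if_neg hng]
  have hlo : (D (fm σ)).F.x₁ ≤ a₀ := hS.lo
  have hTe : ∀ u < (D (fm σ)).F.Q, ∀ ℓ, (D (fm σ)).F.T a₀ (ll κ K₀ ℓ₀ (kp σ)) ((D (fm σ)).F.Q * (D (fm σ)).F.g + u) ℓ =
      tp (D (fm σ)).F.A₀ (D (fm σ)).F.P (D (fm σ)).F.Q u a₀ ℓ - tp (D (fm σ)).F.A₀ (D (fm σ)).F.P (D (fm σ)).F.Q u a₀ (ll κ K₀ ℓ₀ (kp σ)) := by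
    intro u hu ℓ
    obtain ⟨i1, i2, i3⟩ := cls_idx hgg hu
    unfold Fam.T
    rw [if_neg (by rw [i2]; exact hng), i3]
  have h6 := cls_pow (x := x) hok R.hκ (R.big σ) hS (ll_pos (κ := κ) R.pos K₀ k) (ll_anti (κ := κ) R.pos K₀ h1)
    ⟨h3.trans hxa.1, hxa.2.trans h4⟩ ((D (fm σ)).ha i hi) ((D (fm σ)).haQ i hi)
    (fun u hu => tp_phase hok hlo R.pos K₀ u h1 h2) (fun u hu k' hk' j' hj' => by
      obtain ⟨i1, i2, i3⟩ := cls_idx hgg hu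
      have h7 := sums_at R hS h3 h4 h5 hxa i1 (q := (0, 0, k', j')) (by
        rw [i2, hty]
        unfold sysI
        rw [if_pos rfl]
        simp only [Finset.mem_filter, Finset.mem_product, Finset.mem_singleton, Finset.mem_range, true_and]
        exact ⟨⟨hk', hj'.trans_le (Nat.pow_le_pow_right (by norm_num) hk'.le)⟩, hj'⟩)
      rw [i2, hty, hTe u hu] at h7
      have e2 : ∀ j x, (D (fm σ)).F.U a₀ (ll κ K₀ ℓ₀ (kp σ)) ((D (fm σ)).F.Q * (D (fm σ)).F.g + u) j x =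
          pwf (D (fm σ)).F.A₀ (D (fm σ)).F.cp (D (fm σ)).F.P ((D (fm σ)).F.Q *
            (tp (D (fm σ)).F.A₀ (D (fm σ)).F.P (D (fm σ)).F.Q u a₀ (ll κ K₀ ℓ₀ (kp σ)) + j) + u) x := by
        intro j x
        unfold Fam.U
        rw [if_neg (by rw [i2]; exact hng), i3]
      simp only [e2] at h7
      unfold sysf at h7
      simpa only [if_pos] using h7)
    hα hαγ hγ
  have e1 : (D (fm σ)).F.A₀ = A₀ := (D (fm σ)).hA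
  have e2 : (D (fm σ)).F.cp = cp := (D (fm σ)).hcp
  rw [e1, e2] at h6
  simp only [pwf_eq A₀ x cp hr, nuP_eq A₀ x _ hr] at h6
  exact h6

end

/-! ## Lengths -/

theorem len5_succ {κ K₀ : ℕ} {L₀ : ℝ} (k : ℕ) : len5 κ K₀ L₀ (k + 1) = ll κ K₀ (L₀ / 2 ^ ((4 * K₀) ^ (2 * κ + 2))) k := by
  unfold len5
  rw [if_neg (Nat.succ_ne_zero k), Nat.add_sub_cancel]

theorem len5_zero {κ K₀ : ℕ} {L₀ : ℝ} : len5 κ K₀ L₀ 0 = L₀ := by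
  unfold len5
  rw [if_pos rfl]

theorem len5_div {κ K₀ : ℕ} {L₀ : ℝ} (k : ℕ) : len5 κ K₀ L₀ (k + 1) = len5 κ K₀ L₀ k / num5 κ K₀ k := by
  rcases Nat.eq_zero_or_pos k with h | h
  · subst h
    rw [len5_succ, len5_zero]
    unfold ll num5
    rw [if_pos rfl]
    simp
  · obtain ⟨j, rfl⟩ := Nat.exists_eq_succ_of_ne_zero (by omega : k ≠ 0)
    show len5 κ K₀ L₀ (j + 1 + 1) = len5 κ K₀ L₀ (j + 1) / num5 κ K₀ (j + 1)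
    rw [len5_succ, len5_succ, ll_succ]
    unfold num5
    rw [if_neg (Nat.succ_ne_zero j), Nat.add_sub_cancel]
    push_cast
    rfl

/-! ## The main theorem -/

theorem main5_ge {κ : ℕ} (hκ : 1 ≤ κ) {A₀ : ℝ} (hA : 0 < A₀) {θ : ℕ → ℝ} (hθ : ∀ i, 1 < θ i ∧ (Dioph (θ i) κ ∨ RatPow (θ i))) {c : ℝ → ℝ}
    (hc : ∀ y, RatPow y → c y = 0) (cp : ℝ → ℝ) {r : ℕ → ℚ} (hr : ∀ i, 0 < r i) {O : Set ℝ} (hO : IsOpen O) (hne : (O ∩ Ioi 1).Nonempty)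
    {s : ℝ} (hs : 0 < s) (hs1 : s < 1) :
    ENNReal.ofReal s ≤ dimH {x | x ∈ O ∧ (∀ i, ∃ N₀ : ℕ, ∀ N ≥ N₀, DiscLe (fun n => x * θ i ^ n + c (θ i ^ n)) N (Real.log N ^ (2 * κ + 6))) ∧
      ∀ i, ∃ N₀ : ℕ, ∀ N ≥ N₀, DiscLe (tpow A₀ cp (r i) x) N (Real.log N ^ (2 * κ + 6))} := by
  classical
  obtain ⟨x₁, hx₁O, hx₁⟩ := hne
  have hx₁ : 1 < x₁ := hx₁
  obtain ⟨ρ, hρ, hball⟩ := Metric.isOpen_iff.1 hO x₁ hx₁O
  obtain ⟨L₀, hL₀⟩ : ∃ L₀ : ℝ, L₀ = min 1 (ρ / 2) := ⟨_, rfl⟩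
  have hL₀pos : 0 < L₀ := by rw [hL₀]; positivity
  have hL₀1 : L₀ ≤ 1 := by rw [hL₀]; exact min_le_left _ _
  have hL₀ρ : L₀ ≤ ρ / 2 := by rw [hL₀]; exact min_le_right _ _
  have hsub : Icc x₁ (x₁ + L₀) ⊆ O := by
    intro x hx
    refine hball ?_
    rw [Metric.mem_ball, Real.dist_eq, abs_of_nonneg (by linarith [hx.1])]
    linarith [hx.2]
  -- the phases
  have hSD := fun σ => exists_SD5 (κ := κ) hκ hA hx₁ (x₂ := x₁ + L₀) (by linarith) hc (cp := cp) hθ hr σ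
  obtain ⟨D, -⟩ : ∃ D : ∀ σ, SD5 κ A₀ x₁ (x₁ + L₀) c cp θ r σ, True := ⟨fun σ => (hSD σ).some, trivial⟩
  have hthr : ∀ σ, ∃ t : ℕ, ∀ K ≥ t, (D σ).F.Big κ 1000 K ∧ cF (D σ).F ^ 2 ≤ K := fun σ =>
    eventually_atTop.1 ((D σ).big.and (eventually_ge_atTop _))
  choose thr hthr using hthr
  obtain ⟨K₁, hK₁⟩ := eventually_atTop.1 ((ev_len hκ hL₀pos hL₀1).and (ev_mass5 hκ hL₀pos hL₀1))
  obtain ⟨K₀, hK₀⟩ : ∃ K₀, K₀ = max (max (thr 0) K₁) 1 := ⟨_, rfl⟩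
  have hK₀1 : 1 ≤ K₀ := by rw [hK₀]; exact le_max_right _ _
  have hK₀0 : thr 0 ≤ K₀ := by rw [hK₀]; exact (le_max_left _ _).trans (le_max_left _ _)
  have hK₀2 : K₁ ≤ K₀ := by rw [hK₀]; exact (le_max_right _ _).trans (le_max_left _ _)
  obtain ⟨hlen, kk, hkk⟩ := hK₁ K₀ hK₀2
  obtain ⟨ℓ₀, hℓ₀⟩ : ∃ ℓ₀ : ℝ, ℓ₀ = L₀ / 2 ^ ((4 * K₀) ^ (2 * κ + 2)) := ⟨_, rfl⟩
  have hℓ₀pos : 0 < ℓ₀ := by rw [hℓ₀]; positivity
  have hℓ₀1 : ℓ₀ ≤ 1 := by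
    rw [hℓ₀]
    exact (div_le_self hL₀pos.le (one_le_pow₀ (by norm_num))).trans hL₀1
  rw [← hℓ₀] at hlen
  have hbig : ∀ σ, (D (fam thr K₀ σ)).F.Big κ 1000 (K₀ + σ) := fun σ => (hthr _ _ (fam_spec hK₀0 σ)).1
  have hcov := fun σ => nr_cover (D (fam thr K₀ σ)).F (D (fam thr K₀ σ)).ok (D := 1000) (K := K₀ + σ) (by norm_num) (hbig σ).hCx
  choose E hEc hE using hcov
  have R : Rq D (fam thr K₀) E K₀ ℓ₀ := by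
    refine ⟨hκ, hx₁, hℓ₀pos, hbig, fun σ => hlen σ, fun σ x hx h => ?_⟩
    have h1 := hE σ x (by rw [(D (fam thr K₀ σ)).hx₁, (D (fam thr K₀ σ)).hx₂]; exact hx)
    exact h1 h
  have hK100 : ∀ σ, 100 ≤ K₀ + σ := fun σ => (hbig σ).hK
  have hrad : ∀ σ, ll κ K₀ ℓ₀ (kp σ) ≤ rad K₀ σ := by
    intro σ
    have h1 := (hlen σ).1
    have h2 : 998 * (K₀ + σ) ≤ (K₀ + σ) ^ (2 * κ + 2) := by
      have h3 := hK100 σ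
      have h4 : (K₀ + σ) ^ 4 ≤ (K₀ + σ) ^ (2 * κ + 2) := Nat.pow_le_pow_right (by omega) (by omega)
      have h5 : 998 ≤ (K₀ + σ) ^ 3 := by
        calc 998 ≤ 100 ^ 3 := by norm_num
          _ ≤ (K₀ + σ) ^ 3 := Nat.pow_le_pow_left h3 3
      calc 998 * (K₀ + σ) ≤ (K₀ + σ) ^ 3 * (K₀ + σ) := Nat.mul_le_mul_right _ h5
        _ = (K₀ + σ) ^ 4 := by ring
        _ ≤ _ := h4
    have h3 : (2 : ℝ) ^ (998 * (K₀ + σ)) ≤ 2 ^ ((K₀ + σ) ^ (2 * κ + 2)) := pow_le_pow_right₀ (by norm_num) h2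
    have h4 : ll κ K₀ ℓ₀ (kp σ) * 2 ^ (998 * (K₀ + σ)) ≤ 1 :=
      (mul_le_mul_of_nonneg_left h3 (ll_pos hℓ₀pos K₀ _).le).trans h1
    unfold rad
    rw [one_div_pow, le_div_iff₀ (by positivity)]
    exact h4
  have hdim := dim_exc (num5 κ K₀) (len5 κ K₀ L₀) (pro5 K₀) (Nd D (fam thr K₀) E K₀ ℓ₀) x₁
    (fun k => by unfold num5; split_ifs <;> exact Nat.one_le_two_pow) (by rw [len5_zero]; exact hL₀pos) (fun k => len5_div k)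
    ((tendsto_add_atTop_iff_nat 1).1 (by
      have h1 : (fun k => len5 κ K₀ L₀ (k + 1)) = ll κ K₀ ℓ₀ := by
        funext k
        rw [len5_succ, hℓ₀]
      rw [h1]
      exact ll_tendsto hℓ₀pos hK₀1))
    (fun k => by unfold pro5; split_ifs <;> positivity)
    (fun k => by
      unfold pro5
      split_ifs
      · exact le_rfl
      · exact pow_le_one₀ (by norm_num) (by norm_num)) (Or.inl ⟨rfl, rfl⟩) (fun k a hg => ?_) hs hs1 (mass_bound5 hκ hL₀pos K₀ hs hs1)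
    E (fun σ => 2 * rad K₀ σ) kk (fun σ => by unfold rad; positivity) (fun n => ?_)
  rotate_left
  · -- the steps
    rcases hg with ⟨hk, ha⟩ | ⟨hk, ha1, ha2, hg⟩
    · subst hk
      subst ha
      have h1 : ((Finset.range (num5 κ K₀ 0)).filter fun b : ℕ => Nd D (fam thr K₀) E K₀ ℓ₀ (0 + 1) (a + b * len5 κ K₀ L₀ (0 + 1))) =
          Finset.range (num5 κ K₀ 0) := by
        rw [Finset.filter_eq_self]
        intro b hb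
        have h2 : len5 κ K₀ L₀ (0 + 1) = L₀ / (num5 κ K₀ 0 : ℕ) := by rw [len5_div, len5_zero]
        have h3 : ll κ K₀ ℓ₀ 0 = L₀ / (num5 κ K₀ 0 : ℕ) := by rw [← h2, len5_succ, hℓ₀]
        obtain ⟨h4, h5⟩ := child_in (a := a) hL₀pos (Finset.mem_range.1 hb)
        rw [h2]
        refine Or.inr ⟨le_rfl, h4, ?_, Or.inr fun σ h6 _ => absurd h6 (Nat.not_lt_zero _)⟩
        show _ + ll κ K₀ ℓ₀ (0 + 1 - 1) ≤ _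
        rw [Nat.add_sub_cancel, h3]
        exact h5
      have h2 : pro5 K₀ 0 = 1 := by unfold pro5; rw [if_pos rfl]
      rw [h2, one_mul]
      have h3 := congrArg Finset.card h1
      rw [Finset.card_range] at h3
      refine le_of_eq ?_
      exact_mod_cast h3.symm
    · obtain ⟨j, rfl⟩ := Nat.exists_eq_succ_of_ne_zero (by omega : k ≠ 0)
      have e1 : j.succ - 1 = j := rfl
      rw [e1] at ha2 hg
      have h1 := nd_step R j a ha1 ha2 hg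
      have h2 : pro5 K₀ j.succ = (1 / 2) ^ (3 * Kk K₀ j) := by
        unfold pro5
        rw [if_neg (Nat.succ_ne_zero j), e1]
      have h3 : num5 κ K₀ j.succ = 2 ^ (Kk K₀ j ^ (2 * κ + 1)) := by
        unfold num5
        rw [if_neg (Nat.succ_ne_zero j), e1]
      have h4 : len5 κ K₀ L₀ (j.succ + 1) = ll κ K₀ ℓ₀ (j + 1) := by rw [len5_succ, hℓ₀]
      rw [h2, h3, h4]
      refine h1.trans ?_
      refine (Nat.cast_le (α := ℝ)).2 (Finset.card_le_card fun b hb => ?_)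
      rw [Finset.mem_filter] at hb ⊢
      exact ⟨hb.1, Or.inr ⟨Nat.succ_le_succ (Nat.zero_le _), hb.2.1, hb.2.2.1, hb.2.2.2⟩⟩
  · -- the mass of the resonances
    refine le_trans (Finset.sum_le_sum fun σ _ => ?_) (hkk n)
    have h1 : ((E σ).card : ℝ) ≤ ((2 ^ (60 * (K₀ + σ)) : ℕ) : ℝ) := by exact_mod_cast hEc σ
    refine mul_le_mul_of_nonneg_right h1 ?_
    have h2 : 0 < len5 κ K₀ L₀ 0 := by rw [len5_zero]; exact hL₀pos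
    have h3 : 0 ≤ len5 κ K₀ L₀ (kk σ) := by
      unfold len5
      split_ifs
      · exact hL₀pos.le
      · exact (ll_pos (by rw [← hℓ₀]; exact hℓ₀pos) _ _).le
    have h4 : 0 ≤ ∏ j ∈ Finset.range (kk σ), (pro5 K₀ j)⁻¹ := Finset.prod_nonneg fun j _ => by
      unfold pro5
      split_ifs <;> positivity
    refine mul_nonneg (div_nonneg (add_nonneg ?_ (mul_nonneg two_pos.le h3)) h2.le) h4
    show 0 ≤ 2 * (2 * rad K₀ σ)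
    unfold rad
    positivity
  refine hdim.trans (dimH_mono ?_)
  rintro x ⟨hx0, hx, hxE⟩
  rw [len5_zero] at hx0
  have hxP : Pt D (fam thr K₀) E K₀ ℓ₀ x := by
    intro k
    obtain ⟨a, hg, hxa⟩ := hx (k + 1)
    have h1 : len5 κ K₀ L₀ (k + 1) = ll κ K₀ ℓ₀ k := by rw [len5_succ, hℓ₀]
    rw [h1] at hxa
    rcases hg with ⟨h2, -⟩ | ⟨-, ha1, ha2, hg⟩
    · exact absurd h2 (Nat.succ_ne_zero k)
    · rw [Nat.add_sub_cancel] at ha2 hg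
      have hd : ¬ Dead κ E K₀ ℓ₀ k a := by
        rintro ⟨σ, a', e1, e2, e3, y, hy, z, hz, hzy⟩
        refine hxE σ y hy ?_
        have h3 := hrad σ
        constructor
        · linarith [hxa.1, hxa.2, hz.1, hz.2, hzy.1, hzy.2]
        · linarith [hxa.1, hxa.2, hz.1, hz.2, hzy.1, hzy.2]
      exact ⟨a, ha1, ha2, hd, hg.resolve_left hd, hxa⟩
  have hKp : ∀ σ, Kk K₀ (kp σ) = K₀ + σ := fun σ => Kk_phase K₀ le_rfl (kp_strict (Nat.lt_succ_self σ))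
  have hx1 : 1 < x := hx₁.trans_le hx0.1
  refine ⟨hsub hx0, fun i => ?_, fun i => ?_⟩
  · obtain ⟨C₁, hC₁⟩ := nu_succ (κ := κ) hℓ₀pos (hθ i).1 K₀
    obtain ⟨C₂, hC₂⟩ := nu_ge (κ := κ) hℓ₀pos hℓ₀1 (hθ i).1 hK₀1
    refine asm4 (t := fun n => x * θ i ^ n + c (θ i ^ n)) (κ := κ) hK₀1 (nu_mono hℓ₀pos (hθ i).1 K₀) hC₁ hC₂ kp_strict
      (fun σ => by rw [hKp]; exact Nat.le_add_left _ _)
      (G := fun σ => cF (D (fam thr K₀ σ)).F) (i := max i (thr i)) (fun σ _ => by rw [hKp]; exact (hthr _ _ (fam_spec hK₀0 σ)).2) ?_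
    intro σ hσ k h1 h2 α γ hα hαγ hγ
    rw [hKp]
    exact sum_lin R hxP (le_fam ((le_max_left _ _).trans hσ) ((le_max_right _ _).trans hσ)) h1 h2 hα hαγ hγ
  · have hPi := (D i).ok.hP
    have hai := (D i).ha i le_rfl
    have hri := (D i).hr i le_rfl
    have hmono := nuP_mono (κ := κ) hA hPi hai hx1 hℓ₀pos K₀
    obtain ⟨C₁, hC₁⟩ := nuP_succ (κ := κ) hA hPi hai hx1 hℓ₀pos K₀
    obtain ⟨C₂, hC₂⟩ := nuP_ge (κ := κ) hA hPi hai hx1 hℓ₀pos hℓ₀1 hK₀1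
    simp only [nuP_eq A₀ x _ hri] at hmono hC₁ hC₂
    refine asm4 (t := tpow A₀ cp (r i) x) (κ := κ) hK₀1 hmono hC₁ hC₂ kp_strict
      (fun σ => by rw [hKp]; exact Nat.le_add_left _ _)
      (G := fun σ => cF (D (fam thr K₀ σ)).F) (i := max i (thr i)) (fun σ _ => by rw [hKp]; exact (hthr _ _ (fam_spec hK₀0 σ)).2) ?_
    intro σ hσ k h1 h2 α γ hα hαγ hγ
    rw [hKp]
    exact sum_pow R hxP (le_fam ((le_max_left _ _).trans hσ) ((le_max_right _ _).trans hσ)) h1 h2 hα hαγ hγ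

/-- **powers and multiples at once** -/
theorem main5 {κ : ℕ} (hκ : 1 ≤ κ) {A₀ : ℝ} (hA : 0 < A₀) {θ : ℕ → ℝ} (hθ : ∀ i, 1 < θ i ∧ (Dioph (θ i) κ ∨ RatPow (θ i))) {c : ℝ → ℝ}
    (hc : ∀ y, RatPow y → c y = 0) (cp : ℝ → ℝ) {r : ℕ → ℚ} (hr : ∀ i, 0 < r i) {O : Set ℝ} (hO : IsOpen O) (hne : (O ∩ Ioi 1).Nonempty) :
    dimH {x | x ∈ O ∧ (∀ i, ∃ N₀ : ℕ, ∀ N ≥ N₀, DiscLe (fun n => x * θ i ^ n + c (θ i ^ n)) N (Real.log N ^ (2 * κ + 6))) ∧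
      ∀ i, ∃ N₀ : ℕ, ∀ N ≥ N₀, DiscLe (tpow A₀ cp (r i) x) N (Real.log N ^ (2 * κ + 6))} = 1 := by
  refine le_antisymm (dimH_le_one _) ?_
  have h1 : Tendsto (fun m : ℕ => ENNReal.ofReal (1 - 1 / ((m : ℝ) + 2))) atTop (𝓝 1) := by
    have h2 : Tendsto (fun m : ℕ => 1 - 1 / ((m : ℝ) + 2)) atTop (𝓝 (1 - 0)) := by
      refine Tendsto.sub tendsto_const_nhds ?_
      have h3 : Tendsto (fun m : ℕ => (m : ℝ) + 2) atTop atTop :=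
        tendsto_natCast_atTop_atTop.atTop_add tendsto_const_nhds
      have h5 := tendsto_inv_atTop_zero.comp h3
      refine h5.congr fun m => ?_
      rw [Function.comp_apply, one_div]
    rw [sub_zero] at h2
    have h4 := (ENNReal.continuous_ofReal.tendsto 1).comp h2
    rwa [ENNReal.ofReal_one] at h4
  refine le_of_tendsto h1 (Eventually.of_forall fun m => ?_)
  refine main5_ge hκ hA hθ hc cp hr hO hne ?_ ?_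
  · have : (1 : ℝ) / ((m : ℝ) + 2) < 1 := by
      rw [div_lt_one (by positivity)]
      have : (0 : ℝ) ≤ m := Nat.cast_nonneg m
      linarith
    linarith
  · have : (0 : ℝ) < 1 / ((m : ℝ) + 2) := by positivity
    linarith

end Pool.Agent.Helper41.LD5
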